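import Pool.Agent.W941.MG.Stm

/-!
MG-DIAG: the coefficient of the permanent of the test matrix.
-/

namespace Pool.Agent.W557.MG

open MvPolynomial Pool.Agent.W941.MG

set_option autoImplicit false

variable {b n : ℕ} {N : Type} {m : Fin b → ℕ}

lemma prod_vl (e : Fin n ≃ (Σ j, Fin (m j))) (ω : Fin b → ℂ) (M : Fin b →₀ ℕ)
    (hM : ∀ j, M j = m j) :
    ∏ i, ((C (ω (e i).1 ^ ((e i).2 : ℕ)) : MvPolynomial (Fin b) ℂ) * X (e i).1) =
      C (∏ p : (Σ j, Fin (m j)), ω p.1 ^ (p.2 : ℕ)) * monomial M 1 := by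
  rw [Equiv.prod_comp e (fun p => (C (ω p.1 ^ (p.2 : ℕ)) : MvPolynomial (Fin b) ℂ) * X p.1),
    Finset.prod_mul_distrib, map_prod]
  congr 1
  rw [Fintype.prod_sigma, monomial_eq, C_1, one_mul, Finsupp.prod_fintype _ _ (fun i => pow_zero _)]
  refine Finset.prod_congr rfl fun j _ => ?_
  show ∏ _y : Fin (m j), (X j : MvPolynomial (Fin b) ℂ) = _
  rw [Finset.prod_const, Finset.card_univ, Fintype.card_fin, hM]

lemma aeval_perm (e : Fin n ≃ (Σ j, Fin (m j))) (ω : Fin b → ℂ) (A : Fin b → N → Finset (Fin n))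
    (x : Fin b → N) :
    (aeval (fun p : Fin n × Fin n => tm e ω A p.1 p.2) (perm n)) x =
      ∑ σ : Equiv.Perm (Fin n), ∏ i, tm e ω A i (σ i) x := by
  unfold perm
  rw [← Matrix.permanent_transpose, Matrix.permanent]
  rw [map_sum, Finset.sum_apply]
  refine Finset.sum_congr rfl fun σ _ => ?_
  rw [map_prod, Finset.prod_apply]
  refine Finset.prod_congr rfl fun i _ => ?_
  simp [Matrix.transpose]

open Classical in
lemma coeff_eq' (e : Fin n ≃ (Σ j, Fin (m j))) (ω : Fin b → ℂ) (A : Fin b → N → Finset (Fin n))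
    (M : Fin b →₀ ℕ) (hM : ∀ j, M j = m j) (x : Fin b → N) :
    coeff M ((aeval (fun p : Fin n × Fin n => tm e ω A p.1 p.2) (perm n)) x) =
      ((Finset.univ.filter fun σ : Equiv.Perm (Fin n) =>
        ∀ i, σ i ∈ A (e i).1 (x (e i).1)).card : ℂ) *
        ∏ p : (Σ j, Fin (m j)), ω p.1 ^ (p.2 : ℕ) := by
  rw [aeval_perm, coeff_sum]
  have h1 : ∀ σ : Equiv.Perm (Fin n), coeff M (∏ i, tm e ω A i (σ i) x) =
      if ∀ i, σ i ∈ A (e i).1 (x (e i).1) then ∏ p : (Σ j, Fin (m j)), ω p.1 ^ (p.2 : ℕ)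
        else 0 := by
    intro σ
    by_cases h : ∀ i, σ i ∈ A (e i).1 (x (e i).1)
    · have h2 : ∀ i, tm e ω A i (σ i) x = C (ω (e i).1 ^ ((e i).2 : ℕ)) * X (e i).1 :=
        fun i => if_pos (h i)
      rw [if_pos h, Finset.prod_congr rfl fun i _ => h2 i, prod_vl e ω M hM, coeff_C_mul,
        coeff_monomial, if_pos rfl, mul_one]
    · rw [if_neg h]
      push Not at h
      obtain ⟨i, hi⟩ := h
      have h2 : tm e ω A i (σ i) x = 0 := if_neg hi
      rw [Finset.prod_eq_zero (Finset.mem_univ i) h2, coeff_zero]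
  rw [Finset.sum_congr rfl fun σ _ => h1 σ, ← Finset.sum_filter, Finset.sum_const, nsmul_eq_mul]

lemma exists_iff (e : Fin n ≃ (Σ j, Fin (m j))) (B : Fin b → Finset (Fin n))
    (hB : ∀ j, (B j).card = m j) :
    (∃ σ : Equiv.Perm (Fin n), ∀ i, σ i ∈ B (e i).1) ↔ ∀ i j, i ≠ j → Disjoint (B i) (B j) := by
  constructor
  · rintro ⟨σ, hσ⟩
    have h1 : ∀ (j : Fin b) (l : Fin (m j)), σ (e.symm ⟨j, l⟩) ∈ B j := by
      intro j l
      have := hσ (e.symm ⟨j, l⟩)
      rw [Equiv.apply_symm_apply] at this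
      exact this
    have h2 : ∀ (j : Fin b) (c : Fin n), c ∈ B j → ∃ l : Fin (m j), σ (e.symm ⟨j, l⟩) = c := by
      intro j c hc
      have hsub : Finset.univ.image (fun l : Fin (m j) => σ (e.symm ⟨j, l⟩)) = B j := by
        apply Finset.eq_of_subset_of_card_le
        · intro y hy
          obtain ⟨l, -, rfl⟩ := Finset.mem_image.1 hy
          exact h1 j l
        · rw [hB j, Finset.card_image_of_injective, Finset.card_univ, Fintype.card_fin]
          intro l l' hl
          have h3 := e.symm.injective (σ.injective hl)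
          exact eq_of_heq (Sigma.mk.inj h3).2
      rw [← hsub] at hc
      obtain ⟨l, -, hl⟩ := Finset.mem_image.1 hc
      exact ⟨l, hl⟩
    intro i j hij
    rw [Finset.disjoint_left]
    intro c hc hc'
    obtain ⟨l, hl⟩ := h2 i c hc
    obtain ⟨l', hl'⟩ := h2 j c hc'
    have h3 := e.symm.injective (σ.injective (hl.trans hl'.symm))
    exact hij (Sigma.mk.inj h3).1
  · intro h
    have hε : ∀ j, Nonempty (Fin (m j) ≃ B j) := by
      intro j
      exact ⟨((B j).equivFinOfCardEq (hB j)).symm⟩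
    let ε : ∀ j, Fin (m j) ≃ B j := fun j => (hε j).some
    let τ : (Σ j, Fin (m j)) → Fin n := fun p => (ε p.1 p.2 : Fin n)
    have hτ : Function.Injective τ := by
      rintro ⟨i, l⟩ ⟨j, l'⟩ hp
      have hp' : ((ε i l : B i) : Fin n) = ((ε j l' : B j) : Fin n) := hp
      by_cases hij : i = j
      · subst hij
        have h1 : ε i l = ε i l' := Subtype.ext hp'
        rw [(ε i).injective h1]
      · have h1 := Finset.disjoint_left.1 (h i j hij) (ε i l).2
        rw [hp'] at h1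
        exact absurd (ε j l').2 h1
    have hinj : Function.Injective (fun i => τ (e i)) := hτ.comp e.injective
    refine ⟨Equiv.ofBijective _ (Finite.injective_iff_bijective.1 hinj), fun i => ?_⟩
    show (ε (e i).1 (e i).2 : Fin n) ∈ B (e i).1
    exact (ε (e i).1 (e i).2).2

theorem diag : DiagStmt := by
  classical
  intro b n N A m e ω M hM hω hA x
  unfold cf
  rw [coeff_eq' e ω A M hM x, ← exists_iff e (fun j => A j (x j)) (fun j => hA j (x j))]
  have hW : (∏ p : (Σ j, Fin (m j)), ω p.1 ^ (p.2 : ℕ)) ≠ 0 :=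
    Finset.prod_ne_zero_iff.2 fun p _ => pow_ne_zero _ (hω _)
  rw [mul_ne_zero_iff, and_iff_left hW, Nat.cast_ne_zero, Finset.card_ne_zero]
  constructor
  · rintro ⟨σ, hσ⟩
    rw [Finset.mem_filter] at hσ
    exact ⟨σ, hσ.2⟩
  · rintro ⟨σ, hσ⟩
    exact ⟨σ, by rw [Finset.mem_filter]; exact ⟨Finset.mem_univ _, hσ⟩⟩

end Pool.Agent.W557.MG
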